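import Mathlib.Combinatorics.SimpleGraph.Connectivity.Connected
import Mathlib.Combinatorics.SimpleGraph.Finite
import Mathlib.Order.ConditionallyCompleteLattice.Basic
import Mathlib.Data.Int.ConditionallyCompleteOrder
import Mathlib.Data.Fintype.Pi
import Mathlib.Tactic

/-!
# The signed k-subdomination threshold for connected graphs of order 8

`p_𝒢(8) = 6`, so the conjectured value `⌊n/2⌋ + 1` is wrong for `n = 8`: the cube `Q_3` has
`γ_{5s} = 4 > 2 · 5 - 8`.
-/

set_option autoImplicit false

namespace Pool.Agent.Results.MP_1fc697_co.EightVertices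

open Finset Classical

section Defs

variable {V : Type} [Fintype V]

/-- `f[v]`, the sum of `f` over the closed neighbourhood of `v` -/
noncomputable def closedSum (G : SimpleGraph V) (f : V → ℤ) (v : V) : ℤ :=
  ∑ u ∈ univ.filter (fun u => u = v ∨ G.Adj v u), f u

/-- the covered vertices `C_f` -/
noncomputable def covered (G : SimpleGraph V) (f : V → ℤ) : Finset V :=
  univ.filter (fun v => 1 ≤ closedSum G f v)

/-- `f` is a signed `k`-subdominating function -/
def IsSubdominating (G : SimpleGraph V) (k : ℕ) (f : V → ℤ) : Prop :=
  (∀ v, f v = 1 ∨ f v = -1) ∧ k ≤ (covered G f).card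

/-- the signed `k`-subdomination number -/
noncomputable def subdomination (G : SimpleGraph V) (k : ℕ) : ℤ :=
  sInf {w | ∃ f : V → ℤ, IsSubdominating G k f ∧ ∑ v, f v = w}

/-- `p_𝒢(n)`: the least `p` such that `γ_{ks}(G) ≤ 2k - n` for all connected graphs `G` of order `n`
and all `k` with `p ≤ k ≤ n` -/
noncomputable def pConnected (n : ℕ) : ℕ :=
  sInf {p | ∀ G : SimpleGraph (Fin n), G.Connected → ∀ k : ℕ, p ≤ k → k ≤ n →
    subdomination G k ≤ 2 * k - n}

end Defs

variable {V : Type} [Fintype V]

/-- the closed neighbourhood -/
noncomputable def nb (G : SimpleGraph V) (v : V) : Finset V := univ.filter (fun u => u = v ∨ G.Adj v u)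

theorem bddBelow (G : SimpleGraph V) (k : ℕ) :
    BddBelow {w | ∃ f : V → ℤ, IsSubdominating G k f ∧ ∑ v, f v = w} := by
  refine ⟨-(Fintype.card V : ℤ), ?_⟩
  rintro w ⟨f, hf, rfl⟩
  have h1 : ∀ v ∈ (univ : Finset V), (-1 : ℤ) ≤ f v := by
    intro v _
    rcases hf.1 v with h | h <;> rw [h] <;> norm_num
  have h2 := Finset.sum_le_sum h1
  simpa using h2

/-- a set `M` of `n - k` vertices with at most `n - k` bad vertices gives a good function -/
theorem subdomination_le (G : SimpleGraph V) (M : Finset V) (k : ℕ) (hk : k ≤ Fintype.card V)
    (hM : M.card = Fintype.card V - k)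
    (hU : (univ.filter (fun v => (nb G v).card ≤ 2 * (nb G v ∩ M).card)).card ≤
      Fintype.card V - k) :
    subdomination G k ≤ 2 * k - Fintype.card V := by
  apply csInf_le (bddBelow G k)
  refine ⟨fun v => if v ∈ M then -1 else 1, ⟨fun v => ?_, ?_⟩, ?_⟩
  · by_cases h : v ∈ M
    · right; simp [h]
    · left; simp [h]
  · have hsum : ∀ v, closedSum G (fun v => if v ∈ M then -1 else 1) v =
        (nb G v).card - 2 * ((nb G v ∩ M).card : ℤ) := by
      intro v
      unfold closedSum
      change ∑ u ∈ nb G v, (if u ∈ M then (-1 : ℤ) else 1) = _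
      rw [sum_ite, sum_const, sum_const]
      have h1 : (nb G v).filter (fun x => x ∈ M) = nb G v ∩ M := by
        ext x; simp
      have h2 := card_filter_add_card_filter_not (s := nb G v) (fun x => x ∈ M)
      rw [h1] at h2 ⊢
      have h3 : ((nb G v ∩ M).card : ℤ) + (((nb G v).filter (fun x => ¬ x ∈ M)).card : ℤ) =
          (nb G v).card := by exact_mod_cast h2
      simp only [nsmul_eq_mul]
      linarith
    have hcov : covered G (fun v => if v ∈ M then -1 else 1) =
        univ.filter (fun v => ¬ (nb G v).card ≤ 2 * (nb G v ∩ M).card) := by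
      ext v
      simp only [covered, mem_filter, mem_univ, true_and, hsum, not_le]
      constructor
      · intro h
        have : (2 * ((nb G v ∩ M).card : ℤ)) < (nb G v).card := by linarith
        exact_mod_cast this
      · intro h
        have : (2 * ((nb G v ∩ M).card : ℤ)) < (nb G v).card := by exact_mod_cast h
        linarith
    rw [hcov]
    have h2 := card_filter_add_card_filter_not (s := (univ : Finset V))
      (fun v => (nb G v).card ≤ 2 * (nb G v ∩ M).card)
    rw [card_univ] at h2
    omega
  · rw [sum_ite, sum_const, sum_const]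
    have h1 : univ.filter (fun x => x ∈ M) = M := by ext x; simp
    have h2 := card_filter_add_card_filter_not (s := (univ : Finset V)) (fun x => x ∈ M)
    rw [h1, card_univ] at h2
    rw [h1]
    simp only [nsmul_eq_mul]
    omega

theorem mem_nb {G : SimpleGraph V} {u v : V} : u ∈ nb G v ↔ (u = v ∨ G.Adj v u) := by
  simp [nb]

theorem nb_symm {G : SimpleGraph V} {u v : V} : u ∈ nb G v ↔ v ∈ nb G u := by
  rw [mem_nb, mem_nb]
  constructor
  · rintro (h | h)
    · exact Or.inl h.symm
    · exact Or.inr h.symm
  · rintro (h | h)
    · exact Or.inl h.symm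
    · exact Or.inr h.symm

theorem self_mem {G : SimpleGraph V} {v : V} : v ∈ nb G v := mem_nb.2 (Or.inl rfl)

/-- in a connected graph of order at least two, closed neighbourhoods have at least two elements -/
theorem two_le {G : SimpleGraph V} (hG : G.Connected) (hV : 2 ≤ Fintype.card V) (v : V) :
    2 ≤ (nb G v).card := by
  obtain ⟨w, hw⟩ : ∃ w, w ≠ v := Fintype.exists_ne_of_one_lt_card (by omega) v
  obtain ⟨p⟩ := hG.preconnected v w
  cases p with
  | nil => exact absurd rfl hw
  | @cons _ u _ h q =>
    have : ({v, u} : Finset V) ⊆ nb G v := by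
      intro x hx
      simp only [mem_insert, mem_singleton] at hx
      rcases hx with rfl | rfl
      · exact self_mem
      · exact mem_nb.2 (Or.inr h)
    have h2 := card_le_card this
    rw [card_pair h.ne] at h2
    exact h2

/-- two adjacent vertices with closed neighbourhoods of size two form a component -/
theorem leaf_nbr {G : SimpleGraph V} (hG : G.Connected) (hV : 3 ≤ Fintype.card V) {x s : V}
    (hxs : G.Adj x s) (hx : (nb G x).card ≤ 2) : 3 ≤ (nb G s).card := by
  by_contra hcon
  have hnx : nb G x = {x, s} := by
    symm
    apply eq_of_subset_of_card_le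
    · intro y hy
      simp only [mem_insert, mem_singleton] at hy
      rcases hy with rfl | rfl
      · exact self_mem
      · exact mem_nb.2 (Or.inr hxs)
    · rw [card_pair hxs.ne]; exact hx
  have hns : nb G s = {x, s} := by
    symm
    apply eq_of_subset_of_card_le
    · intro y hy
      simp only [mem_insert, mem_singleton] at hy
      rcases hy with rfl | rfl
      · exact mem_nb.2 (Or.inr hxs.symm)
      · exact self_mem
    · rw [card_pair hxs.ne]; omega
  have hall : ∀ (a b : V) (p : G.Walk a b), (a = x ∨ a = s) → (b = x ∨ b = s) := by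
    intro a b p
    induction p with
    | nil => exact id
    | @cons a c b h q ih =>
      intro ha
      apply ih
      have hc : c ∈ nb G a := mem_nb.2 (Or.inr h)
      rcases ha with rfl | rfl
      · rw [hnx] at hc; simpa using hc
      · rw [hns] at hc; simpa using hc
  have : (univ : Finset V) ⊆ {x, s} := by
    intro y _
    obtain ⟨p⟩ := hG.preconnected x y
    have := hall x y p (Or.inl rfl)
    simpa using this
  have h2 := card_le_card this
  rw [card_univ, card_pair hxs.ne] at h2
  omega

theorem inter_pair_le (A : Finset V) (x y : V) (h : x ∉ A ∨ y ∉ A) : (A ∩ {x, y}).card ≤ 1 := by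
  rw [card_le_one]
  intro a ha b hb
  simp only [mem_inter, mem_insert, mem_singleton] at ha hb
  obtain ⟨ha1, rfl | rfl⟩ := ha <;> obtain ⟨hb1, rfl | rfl⟩ := hb
  · rfl
  · rcases h with h | h
    · exact absurd ha1 h
    · exact absurd hb1 h
  · rcases h with h | h
    · exact absurd hb1 h
    · exact absurd ha1 h
  · rfl

/-- the bad vertices for `M = {x, y}` -/
noncomputable def bad (G : SimpleGraph V) (x y : V) : Finset V :=
  univ.filter (fun v => (nb G v).card ≤ 2 * (nb G v ∩ {x, y}).card)

theorem bad_cases {G : SimpleGraph V} (hG : G.Connected) (hV : 2 ≤ Fintype.card V) {x y v : V}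
    (hv : v ∈ bad G x y) :
    (x ∈ nb G v ∧ y ∈ nb G v ∧ (nb G v).card ≤ 4) ∨
      ((x ∈ nb G v ∨ y ∈ nb G v) ∧ (nb G v).card ≤ 2) := by
  have h1 : (nb G v).card ≤ 2 * (nb G v ∩ {x, y}).card := (mem_filter.1 hv).2
  have h2 := two_le hG hV v
  by_cases h3 : x ∈ nb G v ∧ y ∈ nb G v
  · left
    refine ⟨h3.1, h3.2, ?_⟩
    have : (nb G v ∩ {x, y}).card ≤ ({x, y} : Finset V).card := card_le_card inter_subset_right
    have h4 := card_le_two (a := x) (b := y)
    omega
  · right
    have h4 := inter_pair_le (nb G v) x y (by tauto)
    refine ⟨?_, by omega⟩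
    by_contra hcon
    push Not at hcon
    have : nb G v ∩ {x, y} = ∅ := by
      ext z
      simp only [mem_inter, mem_insert, mem_singleton, notMem_empty, iff_false, not_and]
      rintro hz (rfl | rfl)
      · exact hcon.1 hz
      · exact hcon.2 hz
    rw [this, card_empty] at h1
    omega

theorem exists_pair {G : SimpleGraph V} (hG : G.Connected) (hV : 8 ≤ Fintype.card V) :
    ∃ x y, x ≠ y ∧ (bad G x y).card ≤ 2 := by
  have hV2 : 2 ≤ Fintype.card V := by omega
  by_cases hleaf : ∃ x s, G.Adj x s ∧ (nb G x).card ≤ 2
  · obtain ⟨x, s, hxs, hx⟩ := hleaf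
    have hnx : nb G x = {x, s} := by
      symm
      apply eq_of_subset_of_card_le
      · intro y hy
        simp only [mem_insert, mem_singleton] at hy
        rcases hy with rfl | rfl
        · exact self_mem
        · exact mem_nb.2 (Or.inr hxs)
      · rw [card_pair hxs.ne]; exact hx
    have hsx : ∀ v, x ∈ nb G v → v = x ∨ v = s := by
      intro v hv
      have := nb_symm.1 hv
      rw [hnx] at this
      simpa using this
    have hs3 := leaf_nbr hG (by omega) hxs hx
    by_cases h1 : ∃ y, y ∉ nb G s ∧ (nb G y).card ≤ 2
    · -- another leaf with a different support vertex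
      obtain ⟨y, hy, hy2⟩ := h1
      have hxy : x ≠ y := by
        rintro rfl
        exact hy (mem_nb.2 (Or.inr hxs.symm))
      refine ⟨x, y, hxy, ?_⟩
      have : bad G x y ⊆ {x, y} := by
        intro v hv
        simp only [mem_insert, mem_singleton]
        rcases bad_cases hG hV2 hv with ⟨h2, h3, -⟩ | ⟨h2 | h2, h3⟩
        · rcases hsx v h2 with rfl | rfl
          · exact Or.inl rfl
          · exact absurd h3 hy
        · rcases hsx v h2 with rfl | rfl
          · exact Or.inl rfl
          · omega
        · rcases mem_nb.1 h2 with h4 | h4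
          · exact Or.inr h4.symm
          · have := leaf_nbr hG (by omega) h4.symm hy2
            omega
      exact (card_le_card this).trans card_le_two
    · push Not at h1
      by_cases h2 : ∃ y, y ∉ nb G s
      · obtain ⟨y, hy⟩ := h2
        have hxy : x ≠ y := by
          rintro rfl
          exact hy (mem_nb.2 (Or.inr hxs.symm))
        refine ⟨x, y, hxy, ?_⟩
        have : bad G x y ⊆ {x} := by
          intro v hv
          simp only [mem_singleton]
          rcases bad_cases hG hV2 hv with ⟨h3, h4, -⟩ | ⟨h3 | h3, h4⟩
          · rcases hsx v h3 with rfl | rfl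
            · rfl
            · exact absurd h4 hy
          · rcases hsx v h3 with rfl | rfl
            · rfl
            · omega
          · exfalso
            have hvs : v ∈ nb G s := by
              by_contra hcon
              have := h1 v hcon
              omega
            rcases mem_nb.1 h3 with rfl | h5
            · exact hy hvs
            · rcases mem_nb.1 hvs with rfl | h6
              · omega
              · -- v is a leaf adjacent to both s and y
                have h7 : ({v, s, y} : Finset V) ⊆ nb G v := by
                  intro z hz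
                  simp only [mem_insert, mem_singleton] at hz
                  rcases hz with rfl | rfl | rfl
                  · exact self_mem
                  · exact mem_nb.2 (Or.inr h6.symm)
                  · exact mem_nb.2 (Or.inr h5)
                have hsy : s ≠ y := by
                  rintro rfl
                  exact hy self_mem
                have h8 : ({v, s, y} : Finset V).card = 3 := by
                  rw [card_eq_three]
                  exact ⟨v, s, y, h6.ne', h5.ne, hsy, rfl⟩
                have := card_le_card h7
                omega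
        exact (card_le_card this).trans (by simp)
      · push Not at h2
        have hs8 : 8 ≤ (nb G s).card := by
          have : nb G s = univ := by
            ext z; simp [h2 z]
          rw [this, card_univ]; exact hV
        obtain ⟨y, hy⟩ : ∃ y, y ∉ ({x, s} : Finset V) := by
          by_contra hcon
          push Not at hcon
          have : (univ : Finset V) ⊆ {x, s} := fun z _ => hcon z
          have := card_le_card this
          rw [card_univ] at this
          have h4 := card_le_two (a := x) (b := s)
          omega
        simp only [mem_insert, mem_singleton, not_or] at hy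
        refine ⟨x, y, Ne.symm hy.1, ?_⟩
        have : bad G x y ⊆ {x, y} := by
          intro v hv
          simp only [mem_insert, mem_singleton]
          rcases bad_cases hG hV2 hv with ⟨h3, h4, h5⟩ | ⟨h3 | h3, h4⟩
          · rcases hsx v h3 with rfl | rfl
            · exact Or.inl rfl
            · omega
          · rcases hsx v h3 with rfl | rfl
            · exact Or.inl rfl
            · omega
          · rcases mem_nb.1 h3 with h5 | h5
            · exact Or.inr h5.symm
            · exfalso
              have hvs : v ≠ s := by
                rintro rfl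
                omega
              have h6 : s ∈ nb G v := nb_symm.1 (h2 v)
              have h7 : ({v, s, y} : Finset V) ⊆ nb G v := by
                intro z hz
                simp only [mem_insert, mem_singleton] at hz
                rcases hz with rfl | rfl | rfl
                · exact self_mem
                · exact h6
                · exact mem_nb.2 (Or.inr h5)
              have h8 : ({v, s, y} : Finset V).card = 3 := by
                rw [card_eq_three]
                exact ⟨v, s, y, hvs, h5.ne, Ne.symm hy.2, rfl⟩
              have := card_le_card h7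
              omega
        exact (card_le_card this).trans card_le_two
  · -- minimum degree at least two
    push Not at hleaf
    have hdeg : ∀ v, 3 ≤ (nb G v).card := by
      intro v
      obtain ⟨w, hw⟩ : ∃ w, w ≠ v := Fintype.exists_ne_of_one_lt_card (by omega) v
      obtain ⟨p⟩ := hG.preconnected v w
      cases p with
      | nil => exact absurd rfl hw
      | @cons _ u _ h q => exact hleaf v u h
    by_contra hcon
    push Not at hcon
    have key : ∀ x y, x ≠ y → 3 ≤ (univ.filter (fun v => x ∈ nb G v ∧ y ∈ nb G v ∧
        (nb G v).card ≤ 4)).card := by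
      intro x y hxy
      refine (hcon x y hxy).trans_le (card_le_card ?_)
      intro v hv
      rw [mem_filter]
      refine ⟨mem_univ _, ?_⟩
      rcases bad_cases hG hV2 hv with h | ⟨-, h⟩
      · exact h
      · have := hdeg v
        omega
    obtain ⟨a, b, hab⟩ : ∃ a b : V, a ≠ b := by
      have : 1 < Fintype.card V := by omega
      obtain ⟨a, b, hab⟩ := Fintype.exists_pair_of_one_lt_card this
      exact ⟨a, b, hab⟩
    have h1 := key a b hab
    obtain ⟨v0, hv0⟩ : (univ.filter (fun v => a ∈ nb G v ∧ b ∈ nb G v ∧
        (nb G v).card ≤ 4)).Nonempty := by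
      rw [← card_pos]; omega
    have hv04 : (nb G v0).card ≤ 4 := (mem_filter.1 hv0).2.2.2
    -- every vertex outside N[v0] is adjacent to all neighbours of v0
    have h2 : ∀ y, y ∉ nb G v0 → ∀ w, G.Adj v0 w → y ∈ nb G w ∧ (nb G w).card ≤ 4 := by
      intro y hy w hw
      have hne : v0 ≠ y := by
        rintro rfl
        exact hy self_mem
      have h3 := key v0 y hne
      have h4 : univ.filter (fun v => v0 ∈ nb G v ∧ y ∈ nb G v ∧ (nb G v).card ≤ 4) ⊆
          (nb G v0).erase v0 := by
        intro v hv
        rw [mem_filter] at hv
        rw [mem_erase]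
        refine ⟨?_, nb_symm.1 hv.2.1⟩
        rintro rfl
        exact hy hv.2.2.1
      have h5 : ((nb G v0).erase v0).card ≤ 3 := by
        rw [card_erase_of_mem self_mem]; omega
      have h6 := eq_of_subset_of_card_le h4 (h5.trans h3)
      have h7 : w ∈ (nb G v0).erase v0 := by
        rw [mem_erase]
        exact ⟨hw.ne', mem_nb.2 (Or.inr hw)⟩
      rw [← h6, mem_filter] at h7
      exact ⟨h7.2.2.1, h7.2.2.2⟩
    obtain ⟨w, hw⟩ : ∃ w, G.Adj v0 w := by
      have h3 := hdeg v0
      have h4 : ((nb G v0).erase v0).Nonempty := by
        rw [← card_pos, card_erase_of_mem self_mem]; omega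
      obtain ⟨w, hw⟩ := h4
      rw [mem_erase, mem_nb] at hw
      exact ⟨w, hw.2.resolve_left hw.1⟩
    have h3 : univ \ nb G v0 ⊆ (nb G w).erase v0 := by
      intro y hy
      rw [mem_sdiff] at hy
      rw [mem_erase]
      refine ⟨?_, (h2 y hy.2 w hw).1⟩
      rintro rfl
      exact hy.2 self_mem
    have h4 := card_le_card h3
    have h5 : v0 ∈ nb G w := mem_nb.2 (Or.inr hw.symm)
    rw [card_erase_of_mem h5, card_sdiff_of_subset (subset_univ _), card_univ] at h4
    obtain ⟨y, hy⟩ : ∃ y, y ∉ nb G v0 := by
      by_contra hcon2
      push Not at hcon2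
      have : (univ : Finset V) ⊆ nb G v0 := fun z _ => hcon2 z
      have := card_le_card this
      rw [card_univ] at this
      omega
    have h6 := (h2 y hy w hw).2
    omega

theorem six_works_gen (G : SimpleGraph V) (hcard : Fintype.card V = 8) (hG : G.Connected) (k : ℕ)
    (h6 : 6 ≤ k) (h8 : k ≤ 8) : subdomination G k ≤ 2 * k - (8 : ℕ) := by
  have h2 : 2 ≤ Fintype.card V := by rw [hcard]; norm_num
  rcases (show k = 6 ∨ k = 7 ∨ k = 8 by omega) with rfl | rfl | rfl
  · obtain ⟨x, y, hxy, hb⟩ := exists_pair hG (by rw [hcard])
    have := subdomination_le G {x, y} 6 (by rw [hcard]; norm_num)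
      (by rw [hcard, card_pair hxy]) (by rw [hcard]; exact hb)
    rwa [hcard] at this
  · -- one vertex: a vertex of minimum degree
    obtain ⟨v0⟩ : Nonempty V := by
      rw [← Fintype.card_pos_iff]; omega
    obtain ⟨x, -, hx⟩ := exists_min_image (univ : Finset V) (fun v => (nb G v).card)
      ⟨v0, mem_univ _⟩
    have hU : univ.filter (fun v => (nb G v).card ≤ 2 * (nb G v ∩ {x}).card) ⊆ {x} := by
      intro v hv
      rw [mem_filter] at hv
      rw [mem_singleton]
      have h3 := two_le hG h2 v
      have h4 : x ∈ nb G v := by
        by_contra hcon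
        have : nb G v ∩ {x} = ∅ := by
          ext z
          simp only [mem_inter, mem_singleton, notMem_empty, iff_false, not_and]
          rintro hz rfl
          exact hcon hz
        rw [this, card_empty] at hv
        omega
      have h5 : (nb G v ∩ {x}).card ≤ 1 := (card_le_card inter_subset_right).trans (by simp)
      by_contra hne
      have h6 : G.Adj v x := (mem_nb.1 h4).resolve_left (Ne.symm hne)
      have h7 : (nb G v).card ≤ 2 := by omega
      have h8 := hx v (mem_univ _)
      have h9 := leaf_nbr hG (by rw [hcard]; norm_num) h6 h7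
      omega
    have hU1 : (univ.filter (fun v => (nb G v).card ≤ 2 * (nb G v ∩ {x}).card)).card ≤ 1 :=
      (card_le_card hU).trans (by simp)
    have := subdomination_le G {x} 7 (by rw [hcard]; norm_num) (by rw [hcard]; simp)
      (by rw [hcard]; exact hU1)
    rwa [hcard] at this
  · have hU : univ.filter (fun v => (nb G v).card ≤ 2 * (nb G v ∩ (∅ : Finset V)).card) = ∅ := by
      ext v
      have h3 := two_le hG h2 v
      simp only [mem_filter, mem_univ, true_and, inter_empty, card_empty, mul_zero, notMem_empty,
        iff_false, not_le]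
      omega
    have := subdomination_le G ∅ 8 (by rw [hcard]) (by rw [hcard]; simp)
      (by rw [hU]; simp)
    rwa [hcard] at this

/-! ### The cube -/

/-- adjacency in the cube, seen as `K_{4,4}` minus a perfect matching -/
def adjB (u v : Fin 8) : Bool :=
  (u.val < 4 && 4 ≤ v.val && v.val != u.val + 4) || (v.val < 4 && 4 ≤ u.val && u.val != v.val + 4)

/-- the cube -/
def cube : SimpleGraph (Fin 8) where
  Adj u v := adjB u v = true
  symm := ⟨by intro u v; revert u v; decide⟩
  loopless := ⟨by intro u; revert u; decide⟩

theorem cube_connected : cube.Connected := by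
  have h : ∀ v : Fin 8, cube.Reachable v 0 := by
    have a5 : cube.Reachable 5 0 := SimpleGraph.Adj.reachable (show adjB 5 0 = true by decide)
    have a6 : cube.Reachable 6 0 := SimpleGraph.Adj.reachable (show adjB 6 0 = true by decide)
    have a7 : cube.Reachable 7 0 := SimpleGraph.Adj.reachable (show adjB 7 0 = true by decide)
    have a1 : cube.Reachable 1 6 := SimpleGraph.Adj.reachable (show adjB 1 6 = true by decide)
    have a2 : cube.Reachable 2 5 := SimpleGraph.Adj.reachable (show adjB 2 5 = true by decide)
    have a3 : cube.Reachable 3 5 := SimpleGraph.Adj.reachable (show adjB 3 5 = true by decide)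
    have a4 : cube.Reachable 4 1 := SimpleGraph.Adj.reachable (show adjB 4 1 = true by decide)
    intro v
    fin_cases v
    · exact SimpleGraph.Reachable.refl _
    · exact a1.trans a6
    · exact a2.trans a5
    · exact a3.trans a5
    · exact a4.trans (a1.trans a6)
    · exact a5
    · exact a6
    · exact a7
  exact ⟨fun u v => (h u).trans (h v).symm⟩

theorem cube_check : ∀ b : Fin 8 → Bool,
    5 ≤ (univ.filter (fun v => 1 ≤ ∑ u ∈ univ.filter (fun u => u = v ∨ adjB v u = true),
      (if b u = true then (-1 : ℤ) else 1))).card →
    4 ≤ ∑ u, (if b u = true then (-1 : ℤ) else 1) := by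
  decide +kernel

theorem cube_lower (f : Fin 8 → ℤ) (hf : IsSubdominating cube 5 f) : 4 ≤ ∑ v, f v := by
  have hf' : f = fun u => if (decide (f u = -1)) = true then (-1 : ℤ) else 1 := by
    funext u
    rcases hf.1 u with h | h
    · simp [h]
    · simp [h]
  have h1 := cube_check (fun u => decide (f u = -1))
  rw [← hf'] at h1
  apply h1
  have h2 := hf.2
  unfold covered closedSum at h2
  convert h2 using 2
  ext v
  simp only [mem_filter, mem_univ, true_and]
  refine iff_of_eq (congrArg (fun z => 1 ≤ z) (Finset.sum_congr ?_ (fun _ _ => rfl)))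
  ext u
  simp only [mem_filter, mem_univ, true_and]
  rfl

theorem cube_value : subdomination cube 5 = 4 := by
  apply IsLeast.csInf_eq
  refine ⟨⟨fun v => if v = 0 ∨ v = 4 then -1 else 1, ⟨fun v => ?_, ?_⟩, by decide⟩, ?_⟩
  · by_cases h : v = 0 ∨ v = 4
    · right; simp [h]
    · left; simp [h]
  · have h1 : 5 ≤ (univ.filter (fun v => 1 ≤ ∑ u ∈ univ.filter (fun u => u = v ∨ adjB v u = true),
        (if u = 0 ∨ u = 4 then (-1 : ℤ) else 1))).card := by decide +kernel
    unfold covered closedSum
    convert h1 using 2
    ext v
    simp only [mem_filter, mem_univ, true_and]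
    refine iff_of_eq (congrArg (fun z => 1 ≤ z) (Finset.sum_congr ?_ (fun _ _ => rfl)))
    ext u
    simp only [mem_filter, mem_univ, true_and]
    rfl
  · rintro w ⟨f, hf, rfl⟩
    exact cube_lower f hf

theorem six_works (G : SimpleGraph (Fin 8)) (hG : G.Connected) (k : ℕ) (h6 : 6 ≤ k) (h8 : k ≤ 8) :
    subdomination G k ≤ 2 * k - (8 : ℕ) := by
  have := six_works_gen G (Fintype.card_fin 8) hG k h6 h8
  exact this

/-- `p_𝒢(8) = 6`; in particular the conjectured value `⌊n/2⌋ + 1` is wrong for `n = 8`.  The cube is
connected and has `γ_{5s} = 4 > 2 · 5 - 8`. -/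
theorem result :
    pConnected 8 = 6 ∧ (cube.Connected ∧ subdomination cube 5 = 4) ∧
    ¬ (∀ n : ℕ, 2 ≤ n → pConnected n = n / 2 + 1) := by
  have h : pConnected 8 = 6 := by
    apply IsLeast.csInf_eq
    refine ⟨fun G hG k h6 h8 => six_works G hG k h6 h8, ?_⟩
    intro p hp
    by_contra hcon
    push Not at hcon
    have h1 := hp cube cube_connected 5 (by omega) (by norm_num)
    rw [cube_value] at h1
    norm_num at h1
  refine ⟨h, ⟨cube_connected, cube_value⟩, fun hall => ?_⟩
  have := hall 8 (by norm_num)
  omega

end Pool.Agent.Results.MP_1fc697_co.EightVertices
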